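import Pool.Agent.H3.EP.UniLin

/-!
The numbers `1, e, π` are linearly dependent over `ℚ` if and only if the uniform exponent of
simultaneous rational approximation to `(e, π)` exceeds `(√5 - 1)/2`, if and only if the uniform
exponent of the linear form in `1, e, π` exceeds `(3 + √5)/2`.
-/

namespace Pool.Agent.H52.Kept58.UniformExponents

/-- The distance of a real number to the nearest integer. -/
noncomputable def dist1 (x : ℝ) : ℝ := |x - round x|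

/-- For all large real `Q` there is an integer `1 ≤ q ≤ Q` such that both `q e` and `q π` are within
`Q ^ (-δ)` of an integer. -/
def UniformSimultaneous (δ : ℝ) : Prop :=
  ∃ Q₀ : ℝ, ∀ Q : ℝ, Q₀ ≤ Q → ∃ q : ℕ, 1 ≤ q ∧ (q : ℝ) ≤ Q ∧
    dist1 (q * Real.exp 1) ≤ Q ^ (-δ) ∧ dist1 (q * Real.pi) ≤ Q ^ (-δ)

/-- For all large real `H` there is a nonzero integer vector `v` with entries at most `H` in
absolute value and `|v 0 + v 1 e + v 2 π| ≤ H ^ (-w)`. -/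
def UniformLinearForm (w : ℝ) : Prop :=
  ∃ H₀ : ℝ, ∀ H : ℝ, H₀ ≤ H → ∃ v : Fin 3 → ℤ, v ≠ 0 ∧ (∀ i, |(v i : ℝ)| ≤ H) ∧
    |v 0 + v 1 * Real.exp 1 + v 2 * Real.pi| ≤ H ^ (-w)

lemma not_li_of_rel (a b c : ℤ) (h : (a:ℝ) + b * Real.exp 1 + c * Real.pi = 0)
    (hne : ¬ (a = 0 ∧ b = 0 ∧ c = 0)) : ¬ LinearIndependent ℚ ![(1 : ℝ), Real.exp 1, Real.pi] := by
  intro hli
  rw [Fintype.linearIndependent_iff] at hli
  have h1 := hli ![(a:ℚ), (b:ℚ), (c:ℚ)] (by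
    simp only [Fin.sum_univ_three, Matrix.cons_val_zero, Matrix.cons_val_one,
      Matrix.cons_val, Rat.smul_def]
    push_cast
    linarith)
  apply hne
  refine ⟨?_, ?_, ?_⟩
  · have := h1 0; simpa using this
  · have := h1 1; simpa using this
  · have := h1 2; simpa using this

/-- Equivalent forms of the linear dependence of `1, e, π` over `ℚ`. -/
theorem result :
    [¬ LinearIndependent ℚ ![(1 : ℝ), Real.exp 1, Real.pi],
     ∃ δ : ℝ, (Real.sqrt 5 - 1) / 2 < δ ∧ UniformSimultaneous δ,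
     ∃ K : ℝ, ∀ Q : ℝ, 1 ≤ Q → ∃ q : ℕ, 1 ≤ q ∧ (q : ℝ) ≤ Q ∧
       dist1 (q * Real.exp 1) ≤ K / Q ∧ dist1 (q * Real.pi) ≤ K / Q,
     ∃ w : ℝ, (3 + Real.sqrt 5) / 2 < w ∧ UniformLinearForm w].TFAE := by
  have hms : ∀ (q : ℕ) (t : ℝ), H3EP.ms Real.pi q ≤ t ↔
      dist1 (q * Real.exp 1) ≤ t ∧ dist1 (q * Real.pi) ≤ t := by
    intro q t
    unfold H3EP.ms dist1
    exact max_le_iff
  tfae_have 1 → 3 := by
    intro h
    obtain ⟨a, b, c, hc, hrel⟩ := (H3EP.not_li_iff Real.pi).mp h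
    obtain ⟨K, hK, hQ⟩ := H3EP.sim_of_rel Real.pi a b c hc hrel
    refine ⟨K, fun Q h1 => ?_⟩
    obtain ⟨q, h2, h3, h4⟩ := hQ Q h1
    exact ⟨q, h2, h3, ((hms q _).mp h4).1, ((hms q _).mp h4).2⟩
  tfae_have 3 → 2 := by
    rintro ⟨K, hK⟩
    have hs5 : Real.sqrt 5 < 2.24 := by
      rw [Real.sqrt_lt' (by norm_num)]; norm_num
    refine ⟨0.8, by linarith, max 1 (|K| ^ 5), ?_⟩
    intro Q hQ
    have h1 : 1 ≤ Q := (le_max_left _ _).trans hQ
    have h2 : |K| ^ 5 ≤ Q := (le_max_right _ _).trans hQ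
    obtain ⟨q, h3, h4, h5, h6⟩ := hK Q h1
    have hQ0 : 0 < Q := by linarith
    have key : K / Q ≤ Q ^ (-(0.8:ℝ)) := by
      have e1 : |K| ≤ Q ^ (0.2:ℝ) := by
        have e2 : (|K| ^ 5) ^ (0.2:ℝ) ≤ Q ^ (0.2:ℝ) :=
          Real.rpow_le_rpow (by positivity) h2 (by norm_num)
        have e3 : (|K| ^ 5) ^ (0.2:ℝ) = |K| := by
          rw [← Real.rpow_natCast, ← Real.rpow_mul (abs_nonneg _)]
          norm_num
        rwa [e3] at e2
      have e4 : Q ^ (-(0.8:ℝ)) = Q ^ (0.2:ℝ) / Q := by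
        rw [show (-(0.8:ℝ)) = 0.2 - 1 by norm_num, Real.rpow_sub hQ0, Real.rpow_one]
      rw [e4]
      apply div_le_div_of_nonneg_right _ hQ0.le
      exact (le_abs_self K).trans e1
    exact ⟨q, h3, h4, h5.trans key, h6.trans key⟩
  tfae_have 2 → 1 := by
    rintro ⟨δ, hδ, Q₀, hQ⟩
    obtain ⟨a, b, c, h, hne⟩ := H3EP.sim_main Real.pi δ hδ ⟨Q₀, fun Q h1 => by
      obtain ⟨q, h2, h3, h4, h5⟩ := hQ Q h1
      exact ⟨q, h2, h3, (hms q _).mpr ⟨h4, h5⟩⟩⟩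
    exact not_li_of_rel a b c h hne
  tfae_have 1 → 4 := by
    intro h
    obtain ⟨a, b, c, hc, hrel⟩ := (H3EP.not_li_iff Real.pi).mp h
    have hs5 : Real.sqrt 5 < 2.24 := by
      rw [Real.sqrt_lt' (by norm_num)]; norm_num
    refine ⟨3, by linarith, max 0 (max |(a:ℝ)| (max |(b:ℝ)| |(c:ℝ)|)), ?_⟩
    intro H hH
    refine ⟨![a, b, c], ?_, ?_, ?_⟩
    · intro h0
      have := congrFun h0 2
      simp at this
      omega
    · intro i
      have h1 : max |(a:ℝ)| (max |(b:ℝ)| |(c:ℝ)|) ≤ H := (le_max_right _ _).trans hH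
      fin_cases i
      · exact (le_max_left _ _).trans h1
      · exact ((le_max_left _ _).trans (le_max_right _ _)).trans h1
      · exact ((le_max_right _ _).trans (le_max_right _ _)).trans h1
    · have h0 : 0 ≤ H := (le_max_left _ _).trans hH
      have e : (((![a, b, c] : Fin 3 → ℤ) 0 : ℤ) : ℝ) + ((![a, b, c] : Fin 3 → ℤ) 1 : ℤ) * Real.exp 1
          + ((![a, b, c] : Fin 3 → ℤ) 2 : ℤ) * Real.pi = 0 := by
        simpa using hrel
      rw [e, abs_zero]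
      positivity
  tfae_have 4 → 1 := by
    rintro ⟨w, hw, h⟩
    obtain ⟨a, b, c, h, hne⟩ := H3EP.lin_main Real.pi w hw h
    exact not_li_of_rel a b c h hne
  tfae_finish

end Pool.Agent.H52.Kept58.UniformExponents
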